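import Pool.Agent.H.MP_18c163_nt.B

set_option autoImplicit false

namespace Pool.Agent.Results.MP_18c163_nt.Integral

open PowerSeries Pool.Agent.H.MP_18c163_nt

theorem result (a b c d e f n : ℕ) :
    Odd (coeff n (rescale 4 (hyp (3 / 4 + a) (3 / 4 + b) (3 / 2 + c)) *
      (rescale 4 (hyp (1 / 4 + d) (1 / 4 + e) (1 / 2 + f)))⁻¹)).den := by
  have h := main a b c d e f n
  simp only [G, F] at h
  convert (show Odd _ from h) using 7 <;> push_cast <;> ring

end Pool.Agent.Results.MP_18c163_nt.Integral
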